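import Mathlib
import Pool.Agent.MP_f56020_al.Main

/-- Every finite solvable non-abelian group of odd order is sequenceable: its elements can be
listed, each exactly once, so that the products of the non-empty initial segments of the list are
pairwise distinct. -/
theorem Pool.Agent.Results.MP_f56020_al.OddSolvable.result (G : Type*) [Group G] [Finite G]
    [Group.IsSolvable G] (hodd : Odd (Nat.card G)) (hna : ∃ a b : G, a * b ≠ b * a) :
    ∃ l : List G, l.Nodup ∧ (∀ g : G, g ∈ l) ∧
      ∀ i j : ℕ, i < j → j < l.length → (l.take (i + 1)).prod ≠ (l.take (j + 1)).prod := by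
  obtain ⟨x, y, V, p, hV⟩ := (Pool.Agent.SQ.main G hodd).2 fun h => by
    obtain ⟨a, b, hab⟩ := hna
    exact hab (h a b)
  obtain ⟨m, h1, h2⟩ := p.toList
  have h3 : (((1 : G) :: m : List G) : Multiset G) = Pool.Agent.SQ.al G := by
    rw [← Pool.Agent.SQ.one_add_nz, ← h1]
    rfl
  have h4 : ((List.ofFn fun i : Fin (m.length + 1) => x * ((1 :: m).take (i + 1)).prod :
      List G) : Multiset G) = Pool.Agent.SQ.al G := by
    rw [← hV, ← h2, List.ofFn_succ]
    simp
  refine ⟨1 :: m, Multiset.coe_nodup.1 (h3 ▸ Pool.Agent.SQ.nodup_st _), fun g => ?_,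
    fun i j hij hj e => ?_⟩
  · rw [← Multiset.mem_coe, h3]
    exact Pool.Agent.SQ.mem_st.2 trivial
  · have h0 : (Pool.Agent.SQ.al G).Nodup := Pool.Agent.SQ.nodup_st _
    rw [← h4] at h0
    have h5 := List.nodup_ofFn.1 (Multiset.coe_nodup.1 h0)
    have h6 := @h5 ⟨i, hij.trans hj⟩ ⟨j, hj⟩ (congrArg (x * ·) e)
    exact hij.ne (congrArg Fin.val h6)
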